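import Pool.Agent.Work.MP_c264fd_tight.Tips
import Pool.Agent.Work.MP_c264fd_rough.Process

/-!
# The universal bound for the stationary laws
-/

open MeasureTheory ProbabilityTheory Filter Topology
open scoped ENNReal NNReal

namespace Pool.BDep.Rough

open Rho

/-- from lists of fixed length to the Poisson number of rings -/
theorem rho_le_of_Em {Λ : Finset ℤ} (hΛ : 0 < Λ.card) (T : ℕ) (A : List ℤ → Prop)
    [DecidablePred A] (β : ℝ) (hβ : 0 ≤ β)
    (hA : ∀ m, Λ.card * T ≤ m → Em Λ m (fun l => if A l then 1 else 0) ≤ β) (t : ℝ) (ht : 0 ≤ t) :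
    rho Λ t {l | A l} ≤ ENNReal.ofReal (β + tl T t Λ.card) := by
  have hN : (0 : ℝ) < Λ.card := by exact_mod_cast hΛ
  have h1 : rho Λ t {l | A l} = ENNReal.ofReal (Real.exp (-(Λ.card * t))) *
        ∑' k, ww t k * SS Λ k (fun l => ENNReal.ofReal (if A l then 1 else 0)) := by
    rw [← lintegral_indicator_one (MeasurableSet.of_discrete), ← lintegral_rho]
    refine lintegral_congr fun l => ?_
    by_cases hl : A l
    · rw [Set.indicator_of_mem (by exact hl), if_pos hl, ENNReal.ofReal_one]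
      rfl
    · rw [Set.indicator_of_notMem (by exact hl), if_neg hl, ENNReal.ofReal_zero]
  have h2 : ∀ k, SS Λ k (fun l => ENNReal.ofReal (if A l then 1 else 0))
      ≤ ENNReal.ofReal β * ENNReal.ofReal (Λ.card : ℝ) ^ k
        + ENNReal.ofReal (2 ^ ((Λ.card : ℝ) * T)) * ENNReal.ofReal ((Λ.card : ℝ) / 2) ^ k := by
    intro k
    rw [SS_eq_Em hΛ k _ fun l => by split_ifs <;> norm_num, ← ENNReal.ofReal_pow hN.le,
      ← ENNReal.ofReal_pow (by positivity), ← ENNReal.ofReal_mul hβ,
      ← ENNReal.ofReal_mul (by positivity), ← ENNReal.ofReal_add (by positivity) (by positivity)]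
    refine ENNReal.ofReal_le_ofReal ?_
    by_cases hk : Λ.card * T ≤ k
    · have h3 := hA k hk
      have h4 : (Λ.card : ℝ) ^ k * Em Λ k (fun l => if A l then 1 else 0)
          ≤ (Λ.card : ℝ) ^ k * β := mul_le_mul_of_nonneg_left h3 (by positivity)
      have h5 : 0 ≤ (2 : ℝ) ^ ((Λ.card : ℝ) * T) * ((Λ.card : ℝ) / 2) ^ k := by positivity
      linarith
    · have h3 : Em Λ k (fun l => if A l then 1 else 0) ≤ 1 := by
        refine (Em_mono (G := fun _ => (1 : ℝ)) k fun l _ => by split_ifs <;> norm_num).trans ?_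
        rw [Em_const hΛ]
      have h4 : (Λ.card : ℝ) ^ k * Em Λ k (fun l => if A l then 1 else 0)
          ≤ (Λ.card : ℝ) ^ k * 1 := mul_le_mul_of_nonneg_left h3 (by positivity)
      have h5 : 0 ≤ β * (Λ.card : ℝ) ^ k := by positivity
      have h6 : (Λ.card : ℝ) ^ k * 1 ≤ 2 ^ ((Λ.card : ℝ) * T) * ((Λ.card : ℝ) / 2) ^ k := by
        rw [div_pow, mul_one]
        have h7 : (2 : ℝ) ^ k ≤ 2 ^ ((Λ.card : ℝ) * T) := by
          rw [← Real.rpow_natCast]
          refine Real.rpow_le_rpow_of_exponent_le one_le_two ?_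
          have h8 : (k : ℝ) ≤ (Λ.card * T : ℕ) := by
            have : k ≤ Λ.card * T := by omega
            exact_mod_cast this
          push_cast at h8
          exact h8
        have h8 : (0 : ℝ) < (2 : ℝ) ^ k := by positivity
        rw [← mul_div_assoc, le_div_iff₀ h8, mul_comm]
        exact mul_le_mul_of_nonneg_right h7 (by positivity)
      linarith
  rw [h1]
  calc ENNReal.ofReal (Real.exp (-(Λ.card * t))) *
        ∑' k, ww t k * SS Λ k (fun l => ENNReal.ofReal (if A l then 1 else 0))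
      ≤ ENNReal.ofReal (Real.exp (-(Λ.card * t))) *
        ∑' k, (ENNReal.ofReal β * (ww t k * ENNReal.ofReal (Λ.card : ℝ) ^ k)
        + ENNReal.ofReal (2 ^ ((Λ.card : ℝ) * T)) *
          (ww t k * ENNReal.ofReal ((Λ.card : ℝ) / 2) ^ k)) := by
        refine mul_le_mul_right (ENNReal.tsum_le_tsum fun k => ?_) _
        refine (mul_le_mul_right (h2 k) _).trans (le_of_eq ?_)
        ring
    _ = ENNReal.ofReal (β + tl T t Λ.card) := by
        rw [ENNReal.tsum_add, ENNReal.tsum_mul_left, ENNReal.tsum_mul_left,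
          tsum_ww ht hN.le, tsum_ww ht (by positivity), mul_add, ← mul_assoc, ← mul_assoc,
          ENNReal.ofReal_add hβ (by unfold tl; positivity)]
        congr 1
        · rw [← ENNReal.ofReal_mul (Real.exp_pos _).le, ← ENNReal.ofReal_mul (by positivity)]
          congr 1
          rw [mul_comm (Real.exp _) β, mul_assoc, ← Real.exp_add, neg_add_cancel,
            Real.exp_zero, mul_one]
        · rw [← ENNReal.ofReal_mul (Real.exp_pos _).le, ← ENNReal.ofReal_mul (by positivity)]
          congr 1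
          unfold tl
          rw [mul_comm (Real.exp _) (2 ^ ((Λ.card : ℝ) * T)), mul_assoc, ← Real.exp_add]
          congr 2
          ring

/-- the error from the boundary of the box -/
noncomputable def bde (R T n : ℕ) : ℝ :=
  ((2 * n + 1 : ℕ) : ℝ) * (2 * (2 * R + T) + 1) * (2 * ((1 / 2 : ℝ) ^ (n - R) * Real.exp T))

theorem bde_nonneg (R T n : ℕ) : 0 ≤ bde R T n := by unfold bde; positivity

theorem bde_tendsto (R T : ℕ) : Tendsto (fun n => bde R T n) atTop (𝓝 0) := by
  have h1 : Tendsto (fun n : ℕ => (n : ℝ) * (1 / 2 : ℝ) ^ n) atTop (𝓝 0) :=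
    tendsto_self_mul_const_pow_of_lt_one (by norm_num) (by norm_num)
  have h2 : Tendsto (fun n : ℕ => (1 / 2 : ℝ) ^ n) atTop (𝓝 0) :=
    tendsto_pow_atTop_nhds_zero_of_lt_one (by norm_num) (by norm_num)
  have h3 : Tendsto (fun n : ℕ => (2 * ((n : ℝ) * (1 / 2 : ℝ) ^ n) + (1 / 2 : ℝ) ^ n)
      * ((2 * (2 * R + T) + 1) * 2 * Real.exp T * 2 ^ R)) atTop (𝓝 0) := by
    have := ((h1.const_mul 2).add h2).mul_const
      ((2 * (2 * (R : ℝ) + T) + 1) * 2 * Real.exp T * 2 ^ R)
    simpa using this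
  refine h3.congr' ?_
  filter_upwards [eventually_ge_atTop R] with n hn
  unfold bde
  have h4 : (1 / 2 : ℝ) ^ (n - R) = (1 / 2 : ℝ) ^ n * 2 ^ R := by
    have h5 : (1 / 2 : ℝ) ^ n = (1 / 2 : ℝ) ^ (n - R) * (1 / 2 : ℝ) ^ R := by
      rw [← pow_add]
      congr 1
      omega
    rw [h5, mul_assoc, ← mul_pow]
    norm_num
  rw [h4]
  push_cast
  ring

/-- the ends meet, right and left -/
theorem meet_bound (R T n : ℕ) (hT : 0 < T) (hn : R ≤ n) (m : ℕ) (hm : (box n).card * T ≤ m) :
    Em (box n) m (fun l => if gr (-(R : ℤ)) l ≠ gr R l then 1 else 0)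
      ≤ 4 * R / Real.sqrt T + bde R T n ∧
    Em (box n) m (fun l => if gl (-(R : ℤ)) l ≠ gl R l then 1 else 0)
      ≤ 4 * R / Real.sqrt T + bde R T n := by
  have hcard : (box n).card = 2 * n + 1 := card_box n
  have hΛ : 0 < (box n).card := by rw [hcard]; omega
  have hN : (0 : ℝ) < (box n).card := by exact_mod_cast hΛ
  have hxy : -(R : ℤ) ≤ R := by omega
  have hx : -(n : ℤ) ≤ -(R : ℤ) := by omega
  have hy : (R : ℤ) ≤ n := by exact_mod_cast hn
  set b : ℝ := 2 * ((1 / 2 : ℝ) ^ (n - R) * Real.exp T) with hb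
  have hb0 : 0 ≤ b := by positivity
  have hexp : ∀ m < (box n).card * T, Real.exp (m / (box n).card) ≤ Real.exp T := by
    intro m hm
    refine Real.exp_le_exp.mpr ?_
    rw [div_le_iff₀ hN]
    have : (m : ℝ) ≤ ((box n).card * T : ℕ) := by exact_mod_cast hm.le
    push_cast at this
    linarith
  have hpow : (1 / 2 : ℝ) ^ (n + 1 - R) ≤ (1 / 2 : ℝ) ^ (n - R) :=
    pow_le_pow_of_le_one (by norm_num) (by norm_num) (by omega)
  have hbR : ∀ m < (box n).card * T,
      Em (box n) m (fun l => if gr (R : ℤ) l ∈ box n then 0 else 1) ≤ b := by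
    intro m hm
    refine le_trans (Em_mono m fun l _ => ?_) ((Em_II_tail hΛ (R : ℤ) m (n + 1 - R)).trans ?_)
    · by_cases h : gr (R : ℤ) l ∈ box n
      · rw [if_pos h]
        split_ifs <;> norm_num
      · rw [if_neg h, if_pos]
        left
        unfold box at h
        rw [Finset.mem_Icc] at h
        have h1 := (ends_bounds l (R : ℤ)).2.1
        have h2 : ((n + 1 - R : ℕ) : ℤ) = n + 1 - R := by omega
        rw [h2]
        omega
    · rw [hb]
      have := mul_le_mul hpow (hexp m hm) (Real.exp_pos _).le (by positivity)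
      linarith
  have hbL : ∀ m < (box n).card * T,
      Em (box n) m (fun l => if gl (-(R : ℤ)) l ∈ box n then 0 else 1) ≤ b := by
    intro m hm
    refine le_trans (Em_mono m fun l _ => ?_) ((Em_II_tail hΛ (-(R : ℤ)) m (n + 1 - R)).trans ?_)
    · by_cases h : gl (-(R : ℤ)) l ∈ box n
      · rw [if_pos h]
        split_ifs <;> norm_num
      · rw [if_neg h, if_pos]
        right
        unfold box at h
        rw [Finset.mem_Icc] at h
        have h1 := (ends_bounds l (-(R : ℤ))).1
        have h2 : ((n + 1 - R : ℕ) : ℤ) = n + 1 - R := by omega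
        rw [h2]
        omega
    · rw [hb]
      have := mul_le_mul hpow (hexp m hm) (Real.exp_pos _).le (by positivity)
      linarith
  have h1 := (walk_right hxy hx hy).meet hΛ b T hT hbR hb0 m hm
  have h2 := (walk_left hxy hx hy).meet hΛ b T hT hbL hb0 m hm
  have e1 : ((gr (R : ℤ) [] - gr (-(R : ℤ)) [] : ℤ) : ℝ) = 2 * R := by
    rw [gr_nil, gr_nil]
    push_cast
    ring
  have e2 : ((gl (R : ℤ) [] - gl (-(R : ℤ)) [] : ℤ) : ℝ) = 2 * R := by
    rw [gl_nil, gl_nil]
    push_cast
    ring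
  have hc : (((box n).card : ℕ) : ℝ) = ((2 * n + 1 : ℕ) : ℝ) := by rw [hcard]
  have e3 : (((box n).card : ℕ) : ℝ) * (2 * (2 * R + T) + 1) * b = bde R T n := by
    rw [hb, hc]
    rfl
  have e4 : 2 * (2 * (R : ℝ)) / Real.sqrt T = 4 * R / Real.sqrt T := by ring
  rw [e1, e3, e4] at h1
  rw [e2, e3, e4] at h2
  constructor
  · refine le_trans (Em_mono m fun l _ => ?_) h1
    have := gr_mono l hxy
    by_cases h : gr (-(R : ℤ)) l = gr R l
    · rw [if_neg (by simpa using h)]
      split_ifs <;> norm_num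
    · rw [if_pos h, if_pos (by beta_reduce; omega)]
  · refine le_trans (Em_mono m fun l _ => ?_) h2
    have := gl_mono l hxy
    by_cases h : gl (-(R : ℤ)) l = gl R l
    · rw [if_neg (by simpa using h)]
      split_ifs <;> norm_num
    · rw [if_pos h, if_pos (by beta_reduce; omega)]

/-- the bad event: two sites of `[-R, R]` have heights which differ by more than `u` -/
def Osc (R u : ℕ) (h : Config) : Prop :=
  ∃ z ∈ Finset.Icc (-(R : ℤ)) R, ∃ z' ∈ Finset.Icc (-(R : ℤ)) R, h z' + u < h z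

/-- the bound in a box, time window `s` -/
noncomputable def oscb (R u T n : ℕ) (s : ℝ) : ℝ :=
  2 * (4 * R / Real.sqrt T + bde R T n + tl T s (2 * n + 1 : ℕ))
    + (2 * R + 1) * (Real.exp (3 * s) / 2 ^ u)

theorem rho_osc (R u T n : ℕ) (hT : 0 < T) (hn : R ≤ n) (s : ℝ) (hs : 0 ≤ s) (h : Config) :
    rho (box n) s {l | Osc R u (run l h)} ≤ ENNReal.ofReal (oscb R u T n s) := by
  classical
  have hcard : (box n).card = 2 * n + 1 := card_box n
  have hc : (((box n).card : ℕ) : ℝ) = ((2 * n + 1 : ℕ) : ℝ) := by rw [hcard]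
  have hΛ : 0 < (box n).card := by rw [hcard]; omega
  have hβ : 0 ≤ 4 * (R : ℝ) / Real.sqrt T + bde R T n :=
    add_nonneg (by positivity) (bde_nonneg _ _ _)
  have htl : 0 ≤ tl T s (2 * n + 1 : ℕ) := by unfold tl; positivity
  have h1 := rho_le_of_Em hΛ T (fun l => gr (-(R : ℤ)) l ≠ gr R l) _ hβ
    (fun m hm => (meet_bound R T n hT hn m hm).1) s hs
  have h2 := rho_le_of_Em hΛ T (fun l => gl (-(R : ℤ)) l ≠ gl R l) _ hβ
    (fun m hm => (meet_bound R T n hT hn m hm).2) s hs
  rw [hc] at h1 h2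
  have h3 : rho (box n) s {l | ∃ z ∈ Finset.Icc (-(R : ℤ)) R, (u : ℤ) < run l 0 z}
      ≤ ENNReal.ofReal ((2 * R + 1) * (Real.exp (3 * s) / 2 ^ u)) := by
    have e1 : {l | ∃ z ∈ Finset.Icc (-(R : ℤ)) R, (u : ℤ) < run l 0 z}
        = ⋃ z ∈ Finset.Icc (-(R : ℤ)) R, {l | (u : ℤ) < run l 0 z} := by
      ext l
      simp only [Set.mem_iUnion, Set.mem_ofPred_eq, exists_prop]
    rw [e1]
    refine (measure_biUnion_finset_le _ _).trans ?_
    refine (Finset.sum_le_sum fun z _ => gain_tail (box n) s hs z u).trans (le_of_eq ?_)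
    have e2 : (Finset.Icc (-(R : ℤ)) R).card = 2 * R + 1 := card_box R
    rw [Finset.sum_const, e2, nsmul_eq_mul, ENNReal.ofReal_mul (by positivity)]
    congr 1
    rw [ENNReal.ofReal_add (by positivity) zero_le_one, ENNReal.ofReal_mul (by norm_num)]
    push_cast
    simp
  have hsub : {l | Osc R u (run l h)} ⊆ ({l | gr (-(R : ℤ)) l ≠ gr R l}
      ∪ {l | gl (-(R : ℤ)) l ≠ gl R l})
      ∪ {l | ∃ z ∈ Finset.Icc (-(R : ℤ)) R, (u : ℤ) < run l 0 z} := by
    intro l hl
    obtain ⟨z, hz, z', hz', hlt⟩ := hl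
    by_contra hcon
    rw [Set.mem_union, Set.mem_union, not_or, not_or] at hcon
    obtain ⟨⟨hR, hL⟩, hG⟩ := hcon
    have hR' : gr (-(R : ℤ)) l = gr R l := not_not.mp hR
    have hL' : gl (-(R : ℤ)) l = gl R l := not_not.mp hL
    have hG' : ∀ z ∈ Finset.Icc (-(R : ℤ)) R, run l 0 z ≤ u := by
      intro w hw
      by_contra h4
      exact hG ⟨w, hw, not_le.mp h4⟩
    have := close_of_meet l h _ _ u hR' hL' hG' z z' hz hz'
    omega
  refine (measure_mono hsub).trans ((measure_union_le _ _).trans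
    ((add_le_add ((measure_union_le _ _).trans (add_le_add h1 h2)) h3).trans (le_of_eq ?_)))
  unfold oscb
  rw [← ENNReal.ofReal_add (add_nonneg hβ htl) (add_nonneg hβ htl),
    ← ENNReal.ofReal_add (by linarith) (by positivity)]
  congr 1
  ring

/-- earlier rings only change the initial configuration -/
theorem rho_osc' (R u T n : ℕ) (hT : 0 < T) (hn : R ≤ n) (s t : ℝ) (hs : 0 ≤ s) (hst : s ≤ t)
    (h : Config) :
    rho (box n) t {l | Osc R u (run l h)} ≤ ENNReal.ofReal (oscb R u T n s) := by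
  have h1 := stmt_RhoAdd (box n) (t - s) s (by linarith) hs
  rw [sub_add_cancel] at h1
  have hp1 := stmt_RhoProb (box n) (t - s) (by linarith)
  have hp2 := stmt_RhoProb (box n) s hs
  rw [← h1, Measure.map_apply (measurable_of_countable _) (MeasurableSet.of_discrete),
    Measure.prod_apply (MeasurableSet.of_discrete)]
  calc ∫⁻ l1, rho (box n) s (Prod.mk l1 ⁻¹'
        ((fun p : List ℤ × List ℤ => p.1 ++ p.2) ⁻¹' {l | Osc R u (run l h)})) ∂(rho (box n) (t - s))
      ≤ ∫⁻ _, ENNReal.ofReal (oscb R u T n s) ∂(rho (box n) (t - s)) := by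
        refine lintegral_mono fun l1 => ?_
        refine le_trans (le_of_eq ?_) (rho_osc R u T n hT hn s hs (run l1 h))
        congr 1
        ext l2
        simp only [Set.mem_preimage, Set.mem_ofPred_eq]
        rw [run_append]
    _ = _ := by rw [lintegral_const, measure_univ, mul_one]

/-- passage to the process, for a local event -/
theorem process_general {Ω : Type} [mΩ : MeasurableSpace Ω] (P : Measure Ω)
    [hP : IsProbabilityMeasure P] (C : ℤ → Ω → Set ℝ) (g : Ω → Config) (H : ℝ → Ω → Config)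
    (hBD : IsBallisticDeposition P C g H) (A : Config → Prop) (hAm : MeasurableSet {h | A h})
    (D : Finset ℤ) (hAD : ∀ h h' : Config, (∀ x ∈ D, h x = h' x) → A h → A h')
    (t : ℝ) (ht0 : 0 ≤ t) (β : ℕ → ℝ) (β0 : ℝ) (hβ : Tendsto β atTop (𝓝 β0))
    (hA : ∀ᶠ n in atTop, ∀ h : Config, rho (box n) t {l | A (run l h)} ≤ ENNReal.ofReal (β n)) :
    P {ω | A (H t ω)} ≤ ENNReal.ofReal β0 := by
  have hlaw := fun n : ℕ => stmt_ClockLaw stmt_RhoProb Ω mΩ P hP C g hBD.clocks hBD.measurable
    hBD.indep (box n) t ht0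
  have hnice := stmt_ClockNice Ω mΩ P hP C hBD.clocks
  have hconv : ∀ᵐ ω ∂P, ∀ x : ℤ, ∀ᶠ n in atTop,
      H t ω x = run (ringList (fun x => C x ω) (box n) t) (g ω) x := by
    filter_upwards [hnice, hBD.init, hBD.dyn] with ω h1 h2 h3 x
    have := stmt_TrajUnique (fun x => C x ω) (fun t => H t ω) h1 h3 t x ht0
    rw [h2] at this
    exact this
  set E : ℕ → Set Ω := fun n =>
    {ω | A (run (ringList (fun x => C x ω) (box n) t) (g ω))} with hE
  have hEle : ∀ᶠ n in atTop, P (E n) ≤ ENNReal.ofReal (β n) := by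
    filter_upwards [hA] with n hn
    have hS : MeasurableSet {p : Config × List ℤ | A (run p.2 p.1)} :=
      Bridge.measurable_run_prod hAm
    have hpair : AEMeasurable (fun ω => (g ω, ringList (fun x => C x ω) (box n) t)) P :=
      hBD.measurable.aemeasurable.prodMk (hlaw n).1
    have h3 : P (E n) = (P.map (fun ω => (g ω, ringList (fun x => C x ω) (box n) t)))
        {p : Config × List ℤ | A (run p.2 p.1)} := by
      rw [Measure.map_apply_of_aemeasurable hpair hS]
      rfl
    have hrp := stmt_RhoProb (box n) t ht0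
    have hgp : IsProbabilityMeasure (P.map g) :=
      Measure.isProbabilityMeasure_map hBD.measurable.aemeasurable
    rw [h3, (hlaw n).2, Measure.prod_apply hS]
    calc ∫⁻ h, rho (box n) t (Prod.mk h ⁻¹' {p : Config × List ℤ | A (run p.2 p.1)}) ∂(P.map g)
        ≤ ∫⁻ _, ENNReal.ofReal (β n) ∂(P.map g) := lintegral_mono fun h => hn h
      _ = _ := by rw [lintegral_const, measure_univ, mul_one]
  obtain ⟨N₀, hN₀⟩ := eventually_atTop.mp hEle
  set B : ℕ → Set Ω := fun N => ⋂ n ≥ N, E n with hB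
  have hBm : Monotone B := by
    intro N N' hNN ω hω
    simp only [hB, Set.mem_iInter] at hω ⊢
    intro n hn
    exact hω n (le_trans hNN hn)
  have hBle : ∀ N, P (B N) ≤ ENNReal.ofReal β0 := by
    intro N
    refine ge_of_tendsto (ENNReal.tendsto_ofReal hβ) ?_
    filter_upwards [eventually_ge_atTop N, eventually_ge_atTop N₀] with n hn hn'
    refine le_trans (measure_mono ?_) (hN₀ n hn')
    intro ω hω
    simp only [hB, Set.mem_iInter] at hω
    exact hω n hn
  have hsub : P {ω | A (H t ω)} ≤ P (⋃ N, B N) := by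
    refine measure_mono_ae ?_
    filter_upwards [hconv] with ω hω hw
    have h1 : ∀ᶠ n : ℕ in atTop, ∀ x ∈ D,
        H t ω x = run (ringList (fun x => C x ω) (box n) t) (g ω) x := by
      rw [eventually_all_finset]
      intro x _
      exact hω x
    obtain ⟨N, hN⟩ := eventually_atTop.mp h1
    refine Set.mem_iUnion.mpr ⟨N, ?_⟩
    simp only [hB, Set.mem_iInter]
    intro n hn
    exact hAD _ _ (hN n hn) hw
  refine hsub.trans ?_
  rw [hBm.measure_iUnion]
  exact iSup_le hBle

theorem measurable_osc (R u : ℕ) : MeasurableSet {h : Config | Osc R u h} := by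
  have h1 : {h : Config | Osc R u h} = ⋃ z ∈ Finset.Icc (-(R : ℤ)) R,
      ⋃ z' ∈ Finset.Icc (-(R : ℤ)) R, {h : Config | h z' + u < h z} := by
    ext h
    simp only [Osc, Set.mem_ofPred_eq, Set.mem_iUnion, exists_prop]
  rw [h1]
  refine Finset.measurableSet_biUnion _ fun z _ => Finset.measurableSet_biUnion _ fun z' _ => ?_
  have h2 : Measurable (fun h : Config => (h z', h z)) :=
    (measurable_pi_apply z').prodMk (measurable_pi_apply z)
  have h3 : MeasurableSet {p : ℤ × ℤ | p.1 + u < p.2} := MeasurableSet.of_discrete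
  exact h2 h3

/-- the oscillation of the process at a positive time, from every initial condition -/
theorem osc_process {Ω : Type} [mΩ : MeasurableSpace Ω] (P : Measure Ω)
    [hP : IsProbabilityMeasure P] (C : ℤ → Ω → Set ℝ) (g : Ω → Config) (H : ℝ → Ω → Config)
    (hBD : IsBallisticDeposition P C g H) (R u : ℕ) (hR : 1 ≤ R) (hu : 1 ≤ u) (t : ℝ)
    (ht : (u : ℝ) ≤ 10 * t) :
    P {ω | Osc R u (H t ω)} ≤ ENNReal.ofReal (60 * R / Real.sqrt u) := by
  have hR' : (1 : ℝ) ≤ R := by exact_mod_cast hR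
  have hu' : (1 : ℝ) ≤ u := by exact_mod_cast hu
  have hsu : 0 < Real.sqrt u := Real.sqrt_pos.mpr (by linarith)
  have hsu2 : Real.sqrt u * Real.sqrt u = u := Real.mul_self_sqrt (by linarith)
  rcases lt_or_ge u 20 with h20 | h20
  · refine prob_le_one.trans ?_
    rw [← ENNReal.ofReal_one]
    refine ENNReal.ofReal_le_ofReal ?_
    rw [le_div_iff₀ hsu]
    have h1 : (u : ℝ) ≤ 20 := by exact_mod_cast h20.le
    nlinarith
  · set T := u / 20 with hT
    set s : ℝ := u / 10 with hs
    have hT0 : 0 < T := by omega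
    have hTu : (u : ℝ) ≤ 40 * T := by
      have : u ≤ 40 * T := by omega
      exact_mod_cast this
    have hTs : 2 * (T : ℝ) ≤ s := by
      have h1 : 20 * T ≤ u := by omega
      have h2 : 20 * (T : ℝ) ≤ u := by exact_mod_cast h1
      rw [hs]
      linarith
    have hs0 : 0 ≤ s := by positivity
    have hst : s ≤ t := by rw [hs]; linarith
    have hβ : Tendsto (fun n => oscb R u T n s) atTop
        (𝓝 (2 * (4 * R / Real.sqrt T + 0 + 0) + (2 * R + 1) * (Real.exp (3 * s) / 2 ^ u))) := by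
      unfold oscb
      refine Tendsto.add_const _ (Tendsto.const_mul _ (Tendsto.add (Tendsto.add
        tendsto_const_nhds (bde_tendsto R T)) (tl_tendsto T hT0 s hTs)))
    have h1 := process_general P C g H hBD (Osc R u) (measurable_osc R u)
      (Finset.Icc (-(R : ℤ)) R) (by
        rintro h h' hh ⟨z, hz, z', hz', hlt⟩
        refine ⟨z, hz, z', hz', ?_⟩
        rw [← hh z hz, ← hh z' hz']
        exact hlt) t (hs0.trans hst) _ _ hβ (by
        filter_upwards [eventually_ge_atTop R] with n hn h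
        exact rho_osc' R u T n hT0 hn s t hs0 hst h)
    refine h1.trans (ENNReal.ofReal_le_ofReal ?_)
    have hsT : Real.sqrt u / 7 ≤ Real.sqrt T := by
      refine Real.le_sqrt_of_sq_le ?_
      nlinarith
    have h2 : 4 * (R : ℝ) / Real.sqrt T ≤ 28 * R / Real.sqrt u := by
      have h3 := div_le_div_of_nonneg_left (show (0 : ℝ) ≤ 4 * R by positivity)
        (show 0 < Real.sqrt u / 7 by positivity) hsT
      refine h3.trans (le_of_eq ?_)
      rw [div_div_eq_mul_div]
      ring
    have h3 : Real.exp (3 * s) / 2 ^ u ≤ 1 / Real.sqrt u := by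
      have h4 : Real.exp (3 * s) = Real.exp (3 / 10) ^ u := by
        rw [← Real.exp_nat_mul, hs]
        congr 1
        ring
      have h5 : Real.exp (3 / 10) ≤ 27 / 20 := by
        have h6 := Real.exp_bound' (x := 3 / 10) (by norm_num) (by norm_num) (n := 4) (by norm_num)
        refine h6.trans ?_
        simp only [Finset.sum_range_succ, Finset.sum_range_zero, Nat.factorial]
        norm_num
      have h7 : Real.exp (3 * s) / 2 ^ u ≤ (27 / 40 : ℝ) ^ u := by
        rw [h4, ← div_pow]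
        refine pow_le_pow_left₀ (by positivity) ?_ u
        linarith
      refine h7.trans ?_
      have h8 : 1 + (u : ℝ) * (13 / 27) ≤ (40 / 27 : ℝ) ^ u := by
        have := one_add_mul_le_pow (a := (13 / 27 : ℝ)) (by norm_num) u
        refine this.trans (le_of_eq ?_)
        norm_num
      have h9 : Real.sqrt u ≤ 1 + (u : ℝ) * (13 / 27) := by
        nlinarith [sq_nonneg (Real.sqrt u - 1)]
      have h10 : (27 / 40 : ℝ) ^ u = 1 / (40 / 27 : ℝ) ^ u := by
        rw [one_div, ← inv_pow]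
        norm_num
      rw [h10]
      exact one_div_le_one_div_of_le hsu (h9.trans h8)
    have h11 : (2 * (R : ℝ) + 1) * (Real.exp (3 * s) / 2 ^ u) ≤ 3 * R / Real.sqrt u := by
      calc (2 * (R : ℝ) + 1) * (Real.exp (3 * s) / 2 ^ u) ≤ (2 * (R : ℝ) + 1) * (1 / Real.sqrt u) :=
            mul_le_mul_of_nonneg_left h3 (by positivity)
        _ ≤ (3 * R) * (1 / Real.sqrt u) :=
            mul_le_mul_of_nonneg_right (by linarith) (by positivity)
        _ = 3 * R / Real.sqrt u := by ring
    have h12 : 60 * (R : ℝ) / Real.sqrt u = 2 * (28 * R / Real.sqrt u) + 4 * R / Real.sqrt u := by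
      ring
    have h13 : 3 * (R : ℝ) / Real.sqrt u ≤ 4 * R / Real.sqrt u :=
      div_le_div_of_nonneg_right (by linarith) hsu.le
    rw [h12]
    linarith

/-- THE UNIVERSAL BOUND -/
theorem stationary_tight (μ : Measure Config) (hμ : IsStationary μ) (R u : ℕ) (hR : 1 ≤ R)
    (hu : 1 ≤ u) :
    μ {g | ∃ z : ℤ, |z| ≤ R ∧ (u : ℤ) < |g z|} ≤ ENNReal.ofReal (60 * R / Real.sqrt u) := by
  obtain ⟨hμP, hst⟩ := hμ
  obtain ⟨Ω, mΩ, P, hP, C, g, H, hBD, hg⟩ := processExists' μ hμP
  obtain ⟨hm, hmap⟩ := hst Ω mΩ P hP C g H hBD hg (u : ℝ) (Nat.cast_nonneg _)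
  have h1 := osc_process P C g H hBD R u hR hu (u : ℝ) (by
    have : (0 : ℝ) ≤ u := Nat.cast_nonneg _
    linarith)
  have hrec : AEMeasurable (fun ω => recenter (H (u : ℝ) ω)) P :=
    Bridge.measurable_recenter.comp_aemeasurable hm
  have hS : MeasurableSet {g : Config | ∃ z : ℤ, |z| ≤ R ∧ (u : ℤ) < |g z|} := by
    have e1 : {g : Config | ∃ z : ℤ, |z| ≤ R ∧ (u : ℤ) < |g z|}
        = ⋃ z : ℤ, {g : Config | |z| ≤ R ∧ (u : ℤ) < |g z|} := by
      ext h
      simp only [Set.mem_ofPred_eq, Set.mem_iUnion]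
    rw [e1]
    refine MeasurableSet.iUnion fun z => ?_
    have h2 : MeasurableSet {w : ℤ | |z| ≤ R ∧ (u : ℤ) < |w|} := MeasurableSet.of_discrete
    have h3 : Measurable (fun g : Config => g z) := measurable_pi_apply z
    exact h3 h2
  have h3 : μ {g : Config | ∃ z : ℤ, |z| ≤ R ∧ (u : ℤ) < |g z|}
      = P {ω | ∃ z : ℤ, |z| ≤ R ∧ (u : ℤ) < |H (u : ℝ) ω z - H (u : ℝ) ω 0|} := by
    conv_lhs => rw [← hmap]
    rw [Measure.map_apply_of_aemeasurable hrec hS]
    rfl
  rw [h3]
  refine le_trans (measure_mono ?_) h1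
  rintro ω ⟨z, hz, hlt⟩
  have hz1 : z ∈ Finset.Icc (-(R : ℤ)) R := by
    rw [Finset.mem_Icc]
    exact abs_le.mp hz
  have hz0 : (0 : ℤ) ∈ Finset.Icc (-(R : ℤ)) R := by
    rw [Finset.mem_Icc]
    omega
  rcases lt_abs.mp hlt with h | h
  · exact ⟨z, hz1, 0, hz0, by omega⟩
  · exact ⟨0, hz0, z, hz1, by omega⟩

end Pool.BDep.Rough
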