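import Pool.Agent.Work.MP_c264fd_tight.Walk
import Pool.Agent.Work.MP_c264fd_rough.Law
import Pool.Agent.Work.MP_c264fd_pr_h14.RhoExp

/-!
# The ends of the influence intervals as coalescing walks; the gain
-/

open MeasureTheory ProbabilityTheory Filter Topology
open scoped ENNReal NNReal

namespace Pool.BDep.Rough

open Rho

/-! ## Monotonicity of the ends -/

theorem gr_mono (l : List ℤ) {x y : ℤ} (hxy : x ≤ y) : gr x l ≤ gr y l := by
  induction l with
  | nil => exact hxy
  | cons a l ih =>
    rw [gr_cons, gr_cons]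
    split_ifs <;> omega

theorem gl_mono (l : List ℤ) {x y : ℤ} (hxy : x ≤ y) : gl x l ≤ gl y l := by
  induction l with
  | nil => exact hxy
  | cons a l ih =>
    rw [gl_cons, gl_cons]
    split_ifs <;> omega

theorem gr_le_box {n : ℕ} {x : ℤ} (hx : x ≤ n) (l : List ℤ) (hl : ∀ a ∈ l, a ∈ box n) :
    gr x l ≤ n + 1 := by
  induction l with
  | nil => rw [gr_nil]; omega
  | cons a l ih =>
    have h1 := ih fun b hb => hl b (List.mem_cons_of_mem _ hb)
    have h2 := hl a (List.mem_cons_self)
    unfold box at h2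
    rw [Finset.mem_Icc] at h2
    rw [gr_cons]
    split_ifs with h
    · omega
    · exact h1

theorem gl_ge_box {n : ℕ} {x : ℤ} (hx : -(n : ℤ) ≤ x) (l : List ℤ) (hl : ∀ a ∈ l, a ∈ box n) :
    -(n : ℤ) - 1 ≤ gl x l := by
  induction l with
  | nil => rw [gl_nil]; omega
  | cons a l ih =>
    have h1 := ih fun b hb => hl b (List.mem_cons_of_mem _ hb)
    have h2 := hl a (List.mem_cons_self)
    unfold box at h2
    rw [Finset.mem_Icc] at h2
    rw [gl_cons]
    split_ifs with h
    · omega
    · exact h1

theorem walk_right {n : ℕ} {x y : ℤ} (hxy : x ≤ y) (hx : -(n : ℤ) ≤ x) (hy : y ≤ n) :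
    Walk (box n) (fun l => gr y l - gr x l) (gr y) (gr x) where
  nonneg := fun l => by
    have := gr_mono l hxy
    omega
  step := fun a l => by
    rw [gr_cons, gr_cons]
    split_ifs <;> omega
  eq := fun l h => by omega
  ne := fun l h => by omega
  mem := fun l hl h => by
    have h1 := gr_le_box hy l hl
    have h2 := (ends_bounds l x).2.1
    unfold box
    rw [Finset.mem_Icc]
    omega

theorem walk_left {n : ℕ} {x y : ℤ} (hxy : x ≤ y) (hx : -(n : ℤ) ≤ x) (hy : y ≤ n) :
    Walk (box n) (fun l => gl y l - gl x l) (gl x) (gl y) where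
  nonneg := fun l => by
    have := gl_mono l hxy
    omega
  step := fun a l => by
    rw [gl_cons, gl_cons]
    split_ifs <;> omega
  eq := fun l h => by omega
  ne := fun l h => by omega
  mem := fun l hl h => by
    have h1 := gl_ge_box hx l hl
    have h2 := (ends_bounds l y).1
    unfold box
    rw [Finset.mem_Icc]
    omega

/-! ## The heights between the ends -/

theorem le_run_of_mem (l : List ℤ) : ∀ (h : Config) (y z : ℤ), z ∈ II y l → h z ≤ run l h y := by
  induction l with
  | nil =>
    intro h y z hz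
    unfold II at hz
    rw [gl_nil, gr_nil, Finset.mem_Icc] at hz
    have : z = y := by omega
    rw [this, run_nil]
  | cons a l ih =>
    intro h y z hz
    rw [run_cons]
    have hb := ends_bounds l y
    by_cases h1 : z ∈ II y l
    · exact (le_ring a h z).trans (ih _ y z h1)
    · unfold II at hz h1
      rw [gl_cons, gr_cons, Finset.mem_Icc] at hz
      rw [Finset.mem_Icc] at h1
      have ha : a ∈ II y l := by
        unfold II
        rw [Finset.mem_Icc]
        split_ifs at hz <;> omega
      refine le_trans ?_ (ih (ring a h) y a ha)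
      rw [ring_self]
      have h2 : z = a + 1 ∨ z = a - 1 := by
        split_ifs at hz <;> omega
      rcases h2 with h2 | h2
      · rw [h2]
        exact le_trans (le_max_right _ _) (le_max_left _ _)
      · rw [h2]
        exact le_trans (le_max_left _ _) (le_max_left _ _)

/-- the height is at most the maximum of the initial heights plus the gain -/
theorem run_le_gain (l : List ℤ) (h : Config) (x : ℤ) (c : ℤ) (hc : ∀ z ∈ II x l, h z ≤ c) :
    run l h x ≤ c + run l 0 x := by
  obtain ⟨y, hy, k, -, -, hle, heq⟩ := exists_opt l h x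
  have h1 := hle 0
  have h2 : (0 : Config) y = 0 := rfl
  have h3 := hc y hy
  rw [heq]
  omega

/-- if the ends have met, then the heights are close -/
theorem close_of_meet (l : List ℤ) (h : Config) (x y : ℤ) (u : ℤ)
    (hR : gr x l = gr y l) (hL : gl x l = gl y l) (hu : ∀ z ∈ Finset.Icc x y, run l 0 z ≤ u)
    (z z' : ℤ) (hz : z ∈ Finset.Icc x y) (hz' : z' ∈ Finset.Icc x y) :
    run l h z ≤ run l h z' + u := by
  rw [Finset.mem_Icc] at hz hz'
  have hII : ∀ w, x ≤ w → w ≤ y → II w l = II x l := by
    intro w hw1 hw2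
    have h1 := gr_mono l hw1
    have h2 := gr_mono l hw2
    have h3 := gl_mono l hw1
    have h4 := gl_mono l hw2
    unfold II
    have e1 : gr w l = gr x l := by omega
    have e2 : gl w l = gl x l := by omega
    rw [e1, e2]
  have h1 : run l h z ≤ run l h z' + run l 0 z := by
    refine run_le_gain l h z _ fun w hw => ?_
    refine le_run_of_mem l h z' w ?_
    rw [hII z' hz'.1 hz'.2, ← hII z hz.1 hz.2]
    exact hw
  have h2 := hu z (Finset.mem_Icc.mpr hz)
  omega

/-! ## The gain -/

/-- the exponential dual profile -/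
noncomputable def psi (x : ℤ) : List ℤ → ℤ → ℝ≥0∞
  | [] => fun z => if z = x then 1 else 0
  | a :: l => fun z => if z = a then 2 * psi x l a else
      if z = a - 1 ∨ z = a + 1 then max (psi x l z) (psi x l a) else psi x l z

theorem psi_nil (x z : ℤ) : psi x [] z = if z = x then 1 else 0 := rfl

theorem psi_cons (x a : ℤ) (l : List ℤ) (z : ℤ) : psi x (a :: l) z = if z = a then 2 * psi x l a else
      if z = a - 1 ∨ z = a + 1 then max (psi x l z) (psi x l a) else psi x l z := rfl

theorem psi_cons_le (x a : ℤ) (l : List ℤ) (z : ℤ) : psi x (a :: l) z ≤ psi x l z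
    + ((if z = a then psi x l a else 0) + ((if z = a - 1 then psi x l a else 0)
      + (if z = a + 1 then psi x l a else 0))) := by
  rw [psi_cons]
  by_cases h1 : z = a
  · subst h1
    rw [if_pos rfl, if_pos rfl, two_mul]
    gcongr
    exact le_self_add
  · rw [if_neg h1, if_neg h1, zero_add]
    by_cases h2 : z = a - 1
    · rw [if_pos (Or.inl h2), if_pos h2]
      refine max_le le_self_add ?_
      exact le_trans le_self_add le_add_self
    · by_cases h3 : z = a + 1
      · rw [if_pos (Or.inr h3), if_neg h2, if_pos h3, zero_add]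
        exact max_le le_self_add le_add_self
      · rw [if_neg (by tauto), if_neg h2, if_neg h3]
        simp

theorem psi_sum_cons (x a : ℤ) (l : List ℤ) :
    ∑' z, psi x (a :: l) z ≤ ∑' z, psi x l z + 3 * psi x l a := by
  refine (ENNReal.tsum_le_tsum fun z => psi_cons_le x a l z).trans (le_of_eq ?_)
  rw [ENNReal.tsum_add, ENNReal.tsum_add, ENNReal.tsum_add, tsum_ite_eq, tsum_ite_eq, tsum_ite_eq]
  ring

theorem psi_bound (x : ℤ) (l : List ℤ) : ∀ h : Config,
    ∃ z, ENNReal.ofReal ((2 : ℝ) ^ (run l h x)) ≤ ENNReal.ofReal ((2 : ℝ) ^ (h z)) * psi x l z := by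
  induction l with
  | nil =>
    intro h
    refine ⟨x, ?_⟩
    rw [run_nil, psi_nil, if_pos rfl, mul_one]
  | cons a l ih =>
    intro h
    obtain ⟨z, hz⟩ := ih (ring a h)
    rw [run_cons]
    by_cases h1 : z = a
    · subst h1
      rw [ring_self] at hz
      rcases le_total (h z + 1) (max (h (z - 1)) (h (z + 1))) with hc | hc
      · rcases le_total (h (z - 1)) (h (z + 1)) with hd | hd
        · refine ⟨z + 1, hz.trans ?_⟩
          rw [max_eq_left hc, max_eq_right hd, psi_cons, if_neg (by omega), if_pos (Or.inr rfl)]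
          gcongr
          exact le_max_right _ _
        · refine ⟨z - 1, hz.trans ?_⟩
          rw [max_eq_left hc, max_eq_left hd, psi_cons, if_neg (by omega), if_pos (Or.inl rfl)]
          gcongr
          exact le_max_right _ _
      · refine ⟨z, hz.trans ?_⟩
        rw [max_eq_right hc, psi_cons, if_pos rfl, zpow_add_one₀ two_ne_zero,
          ENNReal.ofReal_mul (by positivity), mul_assoc]
        gcongr
        simp
    · refine ⟨z, hz.trans ?_⟩
      rw [ring_ne h1, psi_cons, if_neg h1]
      gcongr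
      split_ifs
      · exact le_max_left _ _
      · exact le_rfl

theorem gain_exp (Λ : Finset ℤ) (t : ℝ) (ht : 0 ≤ t) (x : ℤ) :
    ∫⁻ l, ENNReal.ofReal ((2 : ℝ) ^ (run l 0 x)) ∂(rho Λ t) ≤ ENNReal.ofReal (Real.exp (3 * t)) := by
  have h1 : ∫⁻ l, (∑' z, psi x l z) ∂(rho Λ t) ≤ ENNReal.ofReal (1 * Real.exp (3 * t)) := by
    refine stmt_RhoExp Λ t 3 1 (fun l => ∑' z, psi x l z) ht (by norm_num) zero_le_one ?_ ?_
    · simp only [psi_nil]
      rw [tsum_ite_eq]
      simp
    · intro l _
      calc ∑ a ∈ Λ, ∑' z, psi x (a :: l) z ≤ ∑ a ∈ Λ, (∑' z, psi x l z + 3 * psi x l a) :=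
            Finset.sum_le_sum fun a _ => psi_sum_cons x a l
        _ = Λ.card * (∑' z, psi x l z) + 3 * ∑ a ∈ Λ, psi x l a := by
            rw [Finset.sum_add_distrib, Finset.sum_const, nsmul_eq_mul, Finset.mul_sum]
        _ ≤ Λ.card * (∑' z, psi x l z) + 3 * ∑' z, psi x l z := by
            gcongr
            exact ENNReal.sum_le_tsum Λ
        _ = ENNReal.ofReal (Λ.card + 3) * ∑' z, psi x l z := by
            rw [ENNReal.ofReal_add (by positivity) (by norm_num), add_mul, ENNReal.ofReal_natCast]
            simp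
  rw [one_mul] at h1
  refine le_trans (lintegral_mono fun l => ?_) h1
  obtain ⟨z, hz⟩ := psi_bound x l 0
  refine hz.trans ?_
  have h2 : (0 : Config) z = 0 := rfl
  rw [h2, zpow_zero, ENNReal.ofReal_one, one_mul]
  exact ENNReal.le_tsum z

theorem gain_tail (Λ : Finset ℤ) (t : ℝ) (ht : 0 ≤ t) (x : ℤ) (u : ℕ) :
    rho Λ t {l | (u : ℤ) < run l 0 x} ≤ ENNReal.ofReal (Real.exp (3 * t) / 2 ^ u) := by
  have h3 : (0 : ℝ) < 2 ^ u := by positivity
  have h2 : {l | (u : ℤ) < run l 0 x} ⊆
      {l | ENNReal.ofReal ((2 : ℝ) ^ u) ≤ ENNReal.ofReal ((2 : ℝ) ^ (run l 0 x))} := by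
    intro l hl
    rw [Set.mem_ofPred_eq] at hl ⊢
    refine ENNReal.ofReal_le_ofReal ?_
    rw [← zpow_natCast]
    exact zpow_le_zpow_right₀ one_le_two hl.le
  refine (measure_mono h2).trans ?_
  refine (meas_ge_le_lintegral_div (measurable_of_countable _).aemeasurable
    (by simp) ENNReal.ofReal_ne_top).trans ?_
  rw [ENNReal.ofReal_div_of_pos h3]
  exact ENNReal.div_le_div_right (gain_exp Λ t ht x) _

end Pool.BDep.Rough
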