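import Pool.Agent.Work.MP_c264fd_rough.Mean

/-!
# Coalescence of the greedy ends
-/

namespace Pool.BDep.Rough

theorem Em_mono' {Λ : Finset ℤ} (m : ℕ) : ∀ {F G : List ℤ → ℝ},
    (∀ l : List ℤ, l.length = m → (∀ x ∈ l, x ∈ Λ) → F l ≤ G l) → Em Λ m F ≤ Em Λ m G := by
  induction m with
  | zero => intro F G h; exact h [] rfl (by simp)
  | succ m ih =>
    intro F G h
    rw [Em_succ, Em_succ]
    refine div_le_div_of_nonneg_right (Finset.sum_le_sum fun y hy => ih fun l hl hl' => ?_)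
      (Nat.cast_nonneg _)
    refine h (y :: l) (by simp [hl]) fun x hx => ?_
    rcases List.mem_cons.mp hx with h1 | h1
    · rw [h1]; exact hy
    · exact hl' x h1

/-- two walkers: `D` is their distance, `U` and `W` are the sites whose rings increase and decrease
the distance -/
structure Walk (Λ : Finset ℤ) (D U W : List ℤ → ℤ) : Prop where
  nonneg : ∀ l, 0 ≤ D l
  step : ∀ a l, D (a :: l) = D l + (if a = U l then 1 else 0) - (if a = W l then 1 else 0)
  eq : ∀ l, D l = 0 → U l = W l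
  ne : ∀ l, 0 < D l → U l ≠ W l
  mem : ∀ l : List ℤ, (∀ x ∈ l, x ∈ Λ) → 0 < D l → W l ∈ Λ

variable {Λ : Finset ℤ} {D U W : List ℤ → ℤ}

/-- the sum of a function of the distance over the first ring -/
theorem Walk.sum (hW : Walk Λ D U W) (φ : ℤ → ℝ) (l : List ℤ) (hl : ∀ x ∈ l, x ∈ Λ)
    (hD : 0 < D l) :
    ∑ a ∈ Λ, φ (D (a :: l)) = Λ.card * φ (D l) + (if U l ∈ Λ then φ (D l + 1) - φ (D l) else 0)
      + (φ (D l - 1) - φ (D l)) := by
  have h1 : ∀ a ∈ Λ, φ (D (a :: l)) = φ (D l) + (if a = U l then φ (D l + 1) - φ (D l) else 0)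
      + (if a = W l then φ (D l - 1) - φ (D l) else 0) := by
    intro a _
    rw [hW.step]
    have hne := hW.ne l hD
    by_cases h2 : a = U l
    · have h3 : a ≠ W l := by rw [h2]; exact hne
      rw [if_pos h2, if_neg h3, if_pos h2, if_neg h3]
      simp
    · by_cases h3 : a = W l
      · rw [if_neg h2, if_pos h3, if_neg h2, if_pos h3]
        simp
      · rw [if_neg h2, if_neg h3, if_neg h2, if_neg h3]
        simp
  rw [Finset.sum_congr rfl h1, Finset.sum_add_distrib, Finset.sum_add_distrib, Finset.sum_const,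
    nsmul_eq_mul, Finset.sum_ite_eq', Finset.sum_ite_eq', if_pos (hW.mem l hl hD)]

theorem Walk.zero (hW : Walk Λ D U W) (l : List ℤ) (hD : D l = 0) (a : ℤ) : D (a :: l) = 0 := by
  rw [hW.step, hD, hW.eq l hD]
  simp

/-- first moment -/
theorem Walk.first (hΛ : 0 < Λ.card) (hW : Walk Λ D U W) (m : ℕ) :
    Em Λ m (fun l => (D l : ℝ)) ≤ (D [] : ℝ) := by
  have hN : (0 : ℝ) < Λ.card := by exact_mod_cast hΛ
  induction m with
  | zero => rw [Em_zero]
  | succ m ih =>
    rw [Em_succ']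
    refine le_trans (Em_mono' m fun l _ hl => ?_) ih
    rcases (hW.nonneg l).eq_or_lt with h0 | h0
    · rw [Finset.sum_congr rfl fun a _ => by rw [hW.zero l h0.symm a], ← h0]
      simp
    · rw [hW.sum (fun k => (k : ℝ)) l hl h0, div_le_iff₀ hN]
      split_ifs
      · push_cast
        linarith
      · push_cast
        linarith

/-- third moment -/
theorem Walk.third (hΛ : 0 < Λ.card) (hW : Walk Λ D U W) (m : ℕ) :
    Em Λ m (fun l => (D l : ℝ) ^ 3) ≤ (D [] : ℝ) ^ 3 + 6 * (D [] : ℝ) * (m / Λ.card) := by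
  have hN : (0 : ℝ) < Λ.card := by exact_mod_cast hΛ
  induction m with
  | zero => rw [Em_zero]; simp
  | succ m ih =>
    rw [Em_succ']
    have h1 : Em Λ m (fun l => (∑ a ∈ Λ, ((D (a :: l) : ℤ) : ℝ) ^ 3) / (Λ.card : ℝ))
        ≤ Em Λ m (fun l => (D l : ℝ) ^ 3 + (6 / (Λ.card : ℝ)) * (D l : ℝ)) := by
      refine Em_mono' m fun l _ hl => ?_
      rcases (hW.nonneg l).eq_or_lt with h0 | h0
      · rw [Finset.sum_congr rfl fun a _ => by rw [hW.zero l h0.symm a], ← h0]
        simp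
      · rw [hW.sum (fun k => (k : ℝ) ^ 3) l hl h0, div_le_iff₀ hN, add_mul, mul_assoc,
          div_mul_eq_mul_div]
        have h2 : (1 : ℝ) ≤ D l := by exact_mod_cast h0
        have h3 : 6 * ((D l : ℝ) * Λ.card) / Λ.card = 6 * D l := by
          field_simp
        rw [h3]
        split_ifs
        · push_cast
          nlinarith
        · push_cast
          nlinarith
    refine h1.trans ?_
    rw [Em_add, Em_const_mul]
    have h4 := hW.first hΛ m
    have h5 : (6 / (Λ.card : ℝ)) * Em Λ m (fun l => (D l : ℝ)) ≤ (6 / (Λ.card : ℝ)) * (D [] : ℝ) :=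
      mul_le_mul_of_nonneg_left h4 (by positivity)
    have h6 : 6 * (D [] : ℝ) * (((m + 1 : ℕ) : ℝ) / Λ.card)
        = 6 * (D [] : ℝ) * (m / Λ.card) + (6 / (Λ.card : ℝ)) * (D [] : ℝ) := by
      push_cast
      ring
    rw [h6]
    linarith

/-- the probability that the walkers have not met -/
noncomputable def pnc (Λ : Finset ℤ) (D : List ℤ → ℤ) (m : ℕ) : ℝ :=
  Em Λ m (fun l => if 0 < D l then 1 else 0)

theorem pnc_nonneg (Λ : Finset ℤ) (D : List ℤ → ℤ) (m : ℕ) : 0 ≤ pnc Λ D m :=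
  Em_nonneg m fun l _ => by split_ifs <;> norm_num

theorem Walk.anti (hΛ : 0 < Λ.card) (hW : Walk Λ D U W) (m : ℕ) :
    pnc Λ D (m + 1) ≤ pnc Λ D m := by
  have hN : (0 : ℝ) < Λ.card := by exact_mod_cast hΛ
  unfold pnc
  rw [Em_succ']
  refine Em_mono' m fun l _ _ => ?_
  rcases (hW.nonneg l).eq_or_lt with h0 | h0
  · rw [Finset.sum_congr rfl fun a _ => by rw [hW.zero l h0.symm a], ← h0]
    simp
  · rw [if_pos h0, div_le_one hN]
    calc ∑ a ∈ Λ, (if 0 < D (a :: l) then (1 : ℝ) else 0) ≤ ∑ a ∈ Λ, 1 :=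
          Finset.sum_le_sum fun a _ => by split_ifs <;> norm_num
      _ = Λ.card := by rw [Finset.sum_const, nsmul_eq_mul, mul_one]

theorem Walk.anti' (hΛ : 0 < Λ.card) (hW : Walk Λ D U W) {m m' : ℕ} (h : m ≤ m') :
    pnc Λ D m' ≤ pnc Λ D m := by
  induction m', h using Nat.le_induction with
  | base => exact le_rfl
  | succ k _ ih => exact (hW.anti hΛ k).trans ih

theorem Walk.le_len (hW : Walk Λ D U W) (l : List ℤ) : D l ≤ D [] + l.length := by
  induction l with
  | nil => simp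
  | cons a l ih =>
    rw [hW.step, List.length_cons]
    push_cast
    split_ifs <;> omega

/-- second moment -/
theorem Walk.second (hΛ : 0 < Λ.card) (hW : Walk Λ D U W) (b : ℝ) (M : ℕ)
    (hb : ∀ m < M, Em Λ m (fun l => if U l ∈ Λ then 0 else 1) ≤ b) (m : ℕ) (hm : m ≤ M) :
    (D [] : ℝ) ^ 2 + 2 * (m / Λ.card) * pnc Λ D m
        - m * ((2 * ((D [] : ℝ) + M) + 1) / Λ.card * b)
      ≤ Em Λ m (fun l => (D l : ℝ) ^ 2) := by
  have hN : (0 : ℝ) < Λ.card := by exact_mod_cast hΛ
  have hD0 : (0 : ℝ) ≤ D [] := by exact_mod_cast hW.nonneg []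
  induction m with
  | zero => rw [Em_zero]; simp
  | succ m ih =>
    have ih' := ih (by omega)
    rw [Em_succ']
    set c : ℝ := (2 * ((D [] : ℝ) + M) + 1) / Λ.card with hc
    have hc0 : 0 ≤ c := by positivity
    have h1 : Em Λ m (fun l => (D l : ℝ) ^ 2 + (2 / (Λ.card : ℝ)) * (if 0 < D l then 1 else 0)
          + (-c) * (if U l ∈ Λ then 0 else 1))
        ≤ Em Λ m (fun l => (∑ a ∈ Λ, ((D (a :: l) : ℤ) : ℝ) ^ 2) / (Λ.card : ℝ)) := by
      refine Em_mono' m fun l hlen hl => ?_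
      rcases (hW.nonneg l).eq_or_lt with h0 | h0
      · rw [Finset.sum_congr rfl fun a _ => by rw [hW.zero l h0.symm a], ← h0]
        simp only [Int.cast_zero, lt_irrefl, if_false]
        have : 0 ≤ c * (if U l ∈ Λ then (0 : ℝ) else 1) := by positivity
        simp
        split_ifs <;> linarith
      · rw [hW.sum (fun k => (k : ℝ) ^ 2) l hl h0, le_div_iff₀ hN, if_pos h0]
        have h2 : (1 : ℝ) ≤ D l := by exact_mod_cast h0
        have h3 : (D l : ℝ) ≤ D [] + M := by
          have h4 := hW.le_len l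
          rw [hlen] at h4
          have h5 : (D l : ℝ) ≤ D [] + m := by exact_mod_cast h4
          have h6 : (m : ℝ) ≤ M := by exact_mod_cast (by omega : m ≤ M)
          linarith
        have h7 : (2 / (Λ.card : ℝ)) * Λ.card = 2 := by field_simp
        have h8 : c * Λ.card = 2 * ((D [] : ℝ) + M) + 1 := by
          rw [hc]
          field_simp
        by_cases hU : U l ∈ Λ
        · rw [if_pos hU, if_pos hU]
          push_cast
          nlinarith
        · rw [if_neg hU, if_neg hU]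
          push_cast
          nlinarith
    refine le_trans ?_ h1
    rw [Em_add, Em_add, Em_const_mul, Em_const_mul]
    have h9 := hb m (by omega)
    have h10 : c * Em Λ m (fun l => if U l ∈ Λ then (0 : ℝ) else 1) ≤ c * b :=
      mul_le_mul_of_nonneg_left h9 hc0
    have h11 := hW.anti hΛ m
    have h12 : 0 ≤ 2 * ((m + 1 : ℝ) / Λ.card) := by positivity
    have h13 := mul_le_mul_of_nonneg_left h11 h12
    have h14 : 2 * ((m + 1 : ℝ) / Λ.card) * pnc Λ D m
        = 2 * (m / Λ.card) * pnc Λ D m + 2 / Λ.card * pnc Λ D m := by ring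
    push_cast
    have h15 : pnc Λ D m = Em Λ m (fun l => if 0 < D l then (1 : ℝ) else 0) := rfl
    rw [← h15]
    linarith

/-- the walkers meet: `P(no meeting before time T) ≤ (3/2)^(1/2) d / T^(1/2)`, up to the error from
the boundary of the box -/
theorem Walk.meet (hΛ : 0 < Λ.card) (hW : Walk Λ D U W) (b : ℝ) (T : ℕ) (hT : 0 < T)
    (hb : ∀ m < Λ.card * T, Em Λ m (fun l => if U l ∈ Λ then 0 else 1) ≤ b) (hb0 : 0 ≤ b)
    (m : ℕ) (hm : Λ.card * T ≤ m) :
    pnc Λ D m ≤ 2 * (D [] : ℝ) / Real.sqrt T + Λ.card * (2 * ((D [] : ℝ) + T) + 1) * b := by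
  have hN : (0 : ℝ) < Λ.card := by exact_mod_cast hΛ
  have hN1 : (1 : ℝ) ≤ Λ.card := by exact_mod_cast hΛ
  have hT' : (0 : ℝ) < T := by exact_mod_cast hT
  have hT1 : (1 : ℝ) ≤ T := by exact_mod_cast hT
  have hD0 : (0 : ℝ) ≤ D [] := by exact_mod_cast hW.nonneg []
  refine (hW.anti' hΛ hm).trans ?_
  set M := Λ.card * T with hM
  have hMT : ((M : ℕ) : ℝ) / Λ.card = T := by
    rw [hM]
    push_cast
    field_simp
  have h2 := hW.second hΛ b M hb M le_rfl
  have h1 := hW.first hΛ M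
  have h3 := hW.third hΛ M
  rw [hMT] at h2 h3
  set d : ℝ := (D [] : ℝ) with hd
  set lam : ℝ := Real.sqrt (d ^ 2 + 6 * T) with hlam
  have hlam0 : 0 < lam := Real.sqrt_pos.mpr (by positivity)
  have hlam2 : lam * lam = d ^ 2 + 6 * T := Real.mul_self_sqrt (by positivity)
  have hCS : Em Λ M (fun l => (D l : ℝ) ^ 2) ≤ d * lam := by
    have h4 : ∀ l : List ℤ, l.length = M → (D l : ℝ) ^ 2
        ≤ (lam / 2) * (D l : ℝ) + (1 / (2 * lam)) * (D l : ℝ) ^ 3 := by
      intro l _
      have h5 : (0 : ℝ) ≤ D l := by exact_mod_cast hW.nonneg l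
      have h6 : (lam / 2) * (D l : ℝ) + (1 / (2 * lam)) * (D l : ℝ) ^ 3 - (D l : ℝ) ^ 2
          = (D l : ℝ) * (lam - D l) ^ 2 / (2 * lam) := by
        field_simp
        ring
      have h7 : 0 ≤ (D l : ℝ) * (lam - D l) ^ 2 / (2 * lam) := by positivity
      linarith
    refine (Em_mono M h4).trans ?_
    rw [Em_add, Em_const_mul, Em_const_mul]
    have h8 : (lam / 2) * Em Λ M (fun l => (D l : ℝ)) ≤ (lam / 2) * d :=
      mul_le_mul_of_nonneg_left h1 (by positivity)
    have h9 : (1 / (2 * lam)) * Em Λ M (fun l => (D l : ℝ) ^ 3)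
        ≤ (1 / (2 * lam)) * (d ^ 3 + 6 * d * T) := mul_le_mul_of_nonneg_left h3 (by positivity)
    have h10 : (1 / (2 * lam)) * (d ^ 3 + 6 * d * T) = (lam / 2) * d := by
      have : d ^ 3 + 6 * d * T = d * (lam * lam) := by rw [hlam2]; ring
      rw [this]
      field_simp
    linarith
  have hsq : lam ≤ d + 3 * Real.sqrt T := by
    rw [hlam]
    refine Real.sqrt_le_iff.mpr ⟨by positivity, ?_⟩
    have h11 : Real.sqrt T * Real.sqrt T = T := Real.mul_self_sqrt hT'.le
    have h12 : 0 ≤ d * Real.sqrt T := by positivity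
    nlinarith
  have h13 : d * lam ≤ d ^ 2 + 3 * d * Real.sqrt T := by
    have := mul_le_mul_of_nonneg_left hsq hD0
    nlinarith
  have h14 : 2 * (T : ℝ) * pnc Λ D M
      ≤ 3 * d * Real.sqrt T + M * ((2 * (d + M) + 1) / Λ.card * b) := by linarith
  have hsT : 0 < Real.sqrt T := Real.sqrt_pos.mpr hT'
  have h15 : Real.sqrt T * Real.sqrt T = T := Real.mul_self_sqrt hT'.le
  have h16 : (M : ℝ) * ((2 * (d + M) + 1) / Λ.card * b)
      ≤ 2 * T * (Λ.card * (2 * (d + T) + 1) * b) := by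
    have h17 : (M : ℝ) * ((2 * (d + M) + 1) / Λ.card * b) = T * ((2 * (d + M) + 1) * b) := by
      rw [hM]
      push_cast
      field_simp
    rw [h17]
    have h18 : 2 * (d + (M : ℝ)) + 1 ≤ Λ.card * (2 * (d + T) + 1) := by
      rw [hM]
      push_cast
      nlinarith
    have h19 := mul_le_mul_of_nonneg_right h18 hb0
    have h20 := mul_le_mul_of_nonneg_left h19 hT'.le
    have h21 : 0 ≤ T * (Λ.card * (2 * (d + T) + 1) * b) := by positivity
    linarith
  have h22 : 3 * d * Real.sqrt T ≤ 2 * T * (2 * d / Real.sqrt T) := by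
    have h23 : 2 * (T : ℝ) * (2 * d / Real.sqrt T) = 4 * d * Real.sqrt T := by
      have : (T : ℝ) / Real.sqrt T = Real.sqrt T := by
        rw [div_eq_iff hsT.ne']
        exact h15.symm
      calc 2 * (T : ℝ) * (2 * d / Real.sqrt T) = 4 * d * (T / Real.sqrt T) := by ring
        _ = 4 * d * Real.sqrt T := by rw [this]
    rw [h23]
    have : 0 ≤ d * Real.sqrt T := by positivity
    linarith
  have h24 : 2 * (T : ℝ) * pnc Λ D M
      ≤ 2 * T * (2 * d / Real.sqrt T + Λ.card * (2 * (d + T) + 1) * b) := by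
    rw [mul_add]
    linarith
  exact le_of_mul_le_mul_left h24 (by positivity)

end Pool.BDep.Rough
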